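import Mathlib

set_option autoImplicit false
open MeasureTheory Set
open scoped ENNReal

namespace Run7.h301.Ent

/-- the pointwise Gibbs inequality -/
lemma gibbs (p c : ℝ) (hp : 0 ≤ p) : Real.negMulLog p + p ≤ p * c + Real.exp (-c) := by
  rcases hp.eq_or_lt with h | h
  · subst h; simp [Real.negMulLog]; positivity
  · have h1 := Real.log_le_sub_one_of_pos (x := Real.exp (-c) / p) (by positivity)
    rw [Real.log_div (Real.exp_pos _).ne' h.ne', Real.log_exp] at h1
    have h2 : p * (-c - Real.log p) ≤ p * (Real.exp (-c) / p - 1) :=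
      mul_le_mul_of_nonneg_left h1 h.le
    have h3 : p * (Real.exp (-c) / p - 1) = Real.exp (-c) - p := by field_simp
    rw [h3] at h2
    simp only [Real.negMulLog]
    nlinarith

lemma gibbs_ennreal (p c : ℝ) (hp : 0 ≤ p) (hp1 : p ≤ 1) (hc : 0 ≤ c) :
    ENNReal.ofReal (Real.negMulLog p) + ENNReal.ofReal p
      ≤ ENNReal.ofReal (p * c) + ENNReal.ofReal (Real.exp (-c)) := by
  have h := gibbs p c hp
  have h0 := Real.negMulLog_nonneg hp hp1
  rw [← ENNReal.ofReal_add h0 hp, ← ENNReal.ofReal_add (by positivity) (by positivity)]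
  exact ENNReal.ofReal_le_ofReal h

/-- Shannon entropy of a map into a (countable) type -/
noncomputable def ent {X J : Type} [MeasurableSpace X] (μ : Measure X) (f : X → J) : ℝ≥0∞ :=
  ∑' j : J, ENNReal.ofReal (Real.negMulLog (μ.real (f ⁻¹' {j})))

lemma ent_comp_inj {X J J' : Type} [MeasurableSpace X] (μ : Measure X) (f : X → J) (e : J → J')
    (he : Function.Injective e) : ent μ (e ∘ f) = ent μ f := by
  unfold ent
  have hs : Function.support (fun k : J' => ENNReal.ofReal (Real.negMulLog (μ.real ((e ∘ f) ⁻¹' {k}))))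
      ⊆ Set.range e := by
    intro k hk
    by_contra hne
    apply hk
    have : (e ∘ f) ⁻¹' {k} = ∅ := by
      ext x
      simp only [mem_preimage, Function.comp_apply, mem_singleton_iff, mem_empty_iff_false,
        iff_false]
      intro hx
      exact hne ⟨f x, hx⟩
    simp [this]
  rw [← he.tsum_eq hs]
  apply tsum_congr
  intro j
  have : (e ∘ f) ⁻¹' {e j} = f ⁻¹' {j} := by
    ext x
    simp [he.eq_iff]
  rw [this]

/-- total mass one, summed over the fibres of a measurable map to a countable type -/
lemma tsum_fibre {X J : Type} [MeasurableSpace X] (μ : Measure X) [Countable J]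
    (f : X → J) (hf : ∀ j, MeasurableSet (f ⁻¹' {j})) (s : Set X) (hs : MeasurableSet s) :
    ∑' j : J, μ (s ∩ f ⁻¹' {j}) = μ s := by
  rw [← measure_iUnion]
  · congr 1
    ext x
    simp
  · intro i j hij
    apply Set.disjoint_left.mpr
    intro x hx hy
    exact hij (by
      have h1 : f x = i := hx.2
      have h2 : f x = j := hy.2
      rw [← h1, ← h2])
  · intro j
    exact hs.inter (hf j)

lemma ent_pair {X J K : Type} [MeasurableSpace X] (μ : Measure X) [IsProbabilityMeasure μ]
    [Countable J] [Countable K] (f : X → J) (g : X → K)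
    (hf : ∀ j, MeasurableSet (f ⁻¹' {j})) (hg : ∀ k, MeasurableSet (g ⁻¹' {k})) :
    ent μ (fun x => (f x, g x)) ≤ ent μ f + ent μ g := by
  classical
  -- notation
  set P : J → K → ℝ := fun j k => μ.real (f ⁻¹' {j} ∩ g ⁻¹' {k}) with hP
  set a : J → ℝ := fun j => μ.real (f ⁻¹' {j}) with ha
  set b : K → ℝ := fun k => μ.real (g ⁻¹' {k}) with hb
  have hpre : ∀ jk : J × K, (fun x => (f x, g x)) ⁻¹' {jk} = f ⁻¹' {jk.1} ∩ g ⁻¹' {jk.2} := by
    intro jk; ext x; simp [Prod.ext_iff]
  have hPa : ∀ j k, P j k ≤ a j := fun j k => measureReal_mono Set.inter_subset_left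
  have hPb : ∀ j k, P j k ≤ b k := fun j k => measureReal_mono Set.inter_subset_right
  have hP0 : ∀ j k, 0 ≤ P j k := fun j k => measureReal_nonneg
  have ha1 : ∀ j, a j ≤ 1 := fun j => measureReal_le_one
  have hb1 : ∀ k, b k ≤ 1 := fun k => measureReal_le_one
  have ha0 : ∀ j, 0 ≤ a j := fun j => measureReal_nonneg
  have hb0 : ∀ k, 0 ≤ b k := fun k => measureReal_nonneg
  -- termwise inequality
  have key : ∀ j k, ENNReal.ofReal (Real.negMulLog (P j k)) + ENNReal.ofReal (P j k)
      ≤ ENNReal.ofReal (P j k * (-Real.log (a j))) + ENNReal.ofReal (P j k * (-Real.log (b k)))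
        + ENNReal.ofReal (a j * b k) := by
    intro j k
    rcases (hP0 j k).eq_or_lt with h | h
    · simp [← h, Real.negMulLog]
    · have haj : 0 < a j := lt_of_lt_of_le h (hPa j k)
      have hbk : 0 < b k := lt_of_lt_of_le h (hPb j k)
      have hla : 0 ≤ -Real.log (a j) := by
        have := Real.log_nonpos haj.le (ha1 j); linarith
      have hlb : 0 ≤ -Real.log (b k) := by
        have := Real.log_nonpos hbk.le (hb1 k); linarith
      have h1 := gibbs_ennreal (P j k) (-Real.log (a j) + -Real.log (b k)) h.le ((hPa j k).trans (ha1 j)) (by positivity)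
      refine h1.trans (le_of_eq ?_)
      congr 1
      · rw [mul_add, ENNReal.ofReal_add (by positivity) (by positivity)]
      · congr 1
        rw [neg_add, neg_neg, neg_neg, Real.exp_add, Real.exp_log haj, Real.exp_log hbk]
  -- sums
  have hsumP : ∑' j, ∑' k, ENNReal.ofReal (P j k) = 1 := by
    have : ∀ j, ∑' k, ENNReal.ofReal (P j k) = μ (f ⁻¹' {j}) := by
      intro j
      rw [← tsum_fibre μ g hg _ (hf j)]
      apply tsum_congr; intro k
      simp [hP, ofReal_measureReal]
    simp_rw [this]
    have := tsum_fibre μ f hf Set.univ MeasurableSet.univ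
    simpa using this
  have hsumab : ∑' j, ∑' k, ENNReal.ofReal (a j * b k) = 1 := by
    have hA : ∑' j, ENNReal.ofReal (a j) = 1 := by
      have := tsum_fibre μ f hf Set.univ MeasurableSet.univ
      simpa [ha, ofReal_measureReal] using this
    have hB : ∑' k, ENNReal.ofReal (b k) = 1 := by
      have := tsum_fibre μ g hg Set.univ MeasurableSet.univ
      simpa [hb, ofReal_measureReal] using this
    simp_rw [fun j k => ENNReal.ofReal_mul (q := b k) (ha0 j), ENNReal.tsum_mul_left, hB, mul_one, hA]
  have hH1 : ∑' j, ∑' k, ENNReal.ofReal (P j k * (-Real.log (a j))) = ent μ f := by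
    unfold ent
    apply tsum_congr; intro j
    have : ∀ k, ENNReal.ofReal (P j k * (-Real.log (a j)))
        = ENNReal.ofReal (P j k) * ENNReal.ofReal (-Real.log (a j)) := by
      intro k; rw [ENNReal.ofReal_mul (hP0 j k)]
    simp_rw [this, ENNReal.tsum_mul_right]
    have h2 : ∑' k, ENNReal.ofReal (P j k) = ENNReal.ofReal (a j) := by
      have := tsum_fibre μ g hg _ (hf j)
      simp only [hP, ha, measureReal_def, ENNReal.ofReal_toReal (measure_ne_top _ _)]
      exact this
    rw [h2, ← ENNReal.ofReal_mul (ha0 j)]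
    congr 1
    simp only [Real.negMulLog, ha]; ring
  have hH2 : ∑' j, ∑' k, ENNReal.ofReal (P j k * (-Real.log (b k))) = ent μ g := by
    rw [ENNReal.tsum_comm]
    unfold ent
    apply tsum_congr; intro k
    have : ∀ j, ENNReal.ofReal (P j k * (-Real.log (b k)))
        = ENNReal.ofReal (P j k) * ENNReal.ofReal (-Real.log (b k)) := by
      intro j; rw [ENNReal.ofReal_mul (hP0 j k)]
    simp_rw [this, ENNReal.tsum_mul_right]
    have h2 : ∑' j, ENNReal.ofReal (P j k) = ENNReal.ofReal (b k) := by
      have := tsum_fibre μ f hf _ (hg k)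
      simp only [hP, hb, measureReal_def, ENNReal.ofReal_toReal (measure_ne_top _ _)]
      simp_rw [Set.inter_comm (f ⁻¹' _)]
      exact this
    rw [h2, ← ENNReal.ofReal_mul (hb0 k)]
    congr 1
    simp only [Real.negMulLog, hb]; ring
  -- conclusion
  have htot : ent μ (fun x => (f x, g x)) + 1 ≤ ent μ f + ent μ g + 1 := by
    calc ent μ (fun x => (f x, g x)) + 1
        = ∑' j, ∑' k, (ENNReal.ofReal (Real.negMulLog (P j k)) + ENNReal.ofReal (P j k)) := by
          simp_rw [ENNReal.tsum_add]
          rw [hsumP]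
          congr 1
          unfold ent
          rw [ENNReal.tsum_prod']
          simp_rw [hpre]
          rfl
      _ ≤ ∑' j, ∑' k, (ENNReal.ofReal (P j k * (-Real.log (a j)))
            + ENNReal.ofReal (P j k * (-Real.log (b k))) + ENNReal.ofReal (a j * b k)) :=
          ENNReal.tsum_le_tsum fun j => ENNReal.tsum_le_tsum fun k => key j k
      _ = ent μ f + ent μ g + 1 := by
          simp_rw [ENNReal.tsum_add]
          rw [hH1, hH2, hsumab]
  exact (ENNReal.add_le_add_iff_right ENNReal.one_ne_top).mp htot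

end Run7.h301.Ent
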