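import Pool.Agent.Run7.h301.Ent

set_option autoImplicit false
open MeasureTheory Set
open scoped ENNReal

namespace Run7.h301.Join
open Run7.h301.Ent

lemma exp_weight_sum (r : ℕ → ℕ) (L : ℕ → ℝ) (ε : ℝ)
    (hε : ∀ n, ∑ i ∈ Finset.range n, (r i : ℝ) * Real.exp (-L i) ≤ ε)
    (S : Finset (ℕ →₀ ℕ)) (hS : ∀ v ∈ S, ∀ i, v i ≤ r i) :
    ∑ v ∈ S, Real.exp (-(∑ i ∈ v.support, L i)) ≤ Real.exp ε := by
  classical
  set w : ℕ → ℕ → ℝ := fun i c => if c = 0 then 1 else Real.exp (-L i) with hw
  obtain ⟨n, hn⟩ : ∃ n, ∀ v ∈ S, v.support ⊆ Finset.range n := by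
    refine ⟨(S.sup fun v => v.support).sup id + 1, ?_⟩
    intro v hv i hi
    rw [Finset.mem_range, Nat.lt_succ_iff]
    have : i ∈ S.sup fun v => v.support := by
      rw [Finset.mem_sup]; exact ⟨v, hv, hi⟩
    exact Finset.le_sup (f := id) this
  have hW : ∀ v ∈ S, Real.exp (-(∑ i ∈ v.support, L i)) = ∏ i : Fin n, w i (v i) := by
    intro v hv
    rw [← Finset.sum_neg_distrib, Real.exp_sum, Fin.prod_univ_eq_prod_range (fun i => w i (v i)) n]
    rw [← Finset.prod_subset (hn v hv)]
    · apply Finset.prod_congr rfl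
      intro i hi
      have : v i ≠ 0 := Finsupp.mem_support_iff.mp hi
      simp [hw, this]
    · intro i _ hi
      have : v i = 0 := Finsupp.notMem_support_iff.mp hi
      simp [hw, this]
  rw [Finset.sum_congr rfl hW]
  have hinj : Set.InjOn (fun v : ℕ →₀ ℕ => (fun i : Fin n => v i)) (S : Set (ℕ →₀ ℕ)) := by
    intro v hv v' hv' h
    ext i
    by_cases hi : i < n
    · exact congrFun h ⟨i, hi⟩
    · have h1 : v i = 0 := by
        by_contra hne
        exact hi (Finset.mem_range.mp (hn v hv (Finsupp.mem_support_iff.mpr hne)))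
      have h2 : v' i = 0 := by
        by_contra hne
        exact hi (Finset.mem_range.mp (hn v' hv' (Finsupp.mem_support_iff.mpr hne)))
      rw [h1, h2]
  have hw0 : ∀ i c, 0 ≤ w i c := by
    intro i c; simp only [hw]; split_ifs <;> positivity
  calc ∑ v ∈ S, ∏ i : Fin n, w i (v i)
      = ∑ u ∈ S.image (fun v : ℕ →₀ ℕ => (fun i : Fin n => v i)), ∏ i : Fin n, w i (u i) := by
        rw [Finset.sum_image hinj]
    _ ≤ ∑ u ∈ Fintype.piFinset (fun i : Fin n => Finset.range (r i + 1)),
          ∏ i : Fin n, w i (u i) := by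
        apply Finset.sum_le_sum_of_subset_of_nonneg
        · intro u hu
          rw [Finset.mem_image] at hu
          obtain ⟨v, hv, rfl⟩ := hu
          rw [Fintype.mem_piFinset]
          intro i
          rw [Finset.mem_range, Nat.lt_succ_iff]
          exact hS v hv i
        · intro u _ _
          exact Finset.prod_nonneg fun i _ => hw0 _ _
    _ = ∏ i : Fin n, ∑ c ∈ Finset.range (r i + 1), w i c := by
        rw [Finset.prod_univ_sum]
    _ = ∏ i : Fin n, (1 + (r i : ℝ) * Real.exp (-L i)) := by
        apply Finset.prod_congr rfl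
        intro i _
        rw [Finset.sum_range_succ']
        simp [hw, add_comm]
    _ ≤ ∏ i : Fin n, Real.exp ((r i : ℝ) * Real.exp (-L i)) := by
        apply Finset.prod_le_prod
        · intro i _; positivity
        · intro i _
          have := Real.add_one_le_exp ((r i : ℝ) * Real.exp (-L i))
          linarith
    _ = Real.exp (∑ i ∈ Finset.range n, (r i : ℝ) * Real.exp (-L i)) := by
        rw [← Real.exp_sum, ← Fin.sum_univ_eq_sum_range (fun i => (r i : ℝ) * Real.exp (-L i)) n]
    _ ≤ Real.exp ε := Real.exp_le_exp.mpr (hε n)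

/-- countable join of rarely active finite valued maps -/
theorem join {X : Type} [MeasurableSpace X] (μ : Measure X) [IsProbabilityMeasure μ]
    (β : ℕ → X → ℕ) (r : ℕ → ℕ) (L : ℕ → ℝ) (ε : ℝ) (hε0 : 0 ≤ ε) (hε1 : ε ≤ 1)
    (hβ : ∀ i, Measurable (β i)) (hr : ∀ i x, β i x ≤ r i) (hL : ∀ i, 0 ≤ L i)
    (h1 : ∑' i, ENNReal.ofReal (L i) * μ {x | β i x ≠ 0} ≤ ENNReal.ofReal ε)
    (h2 : ∑' i, ENNReal.ofReal ((r i : ℝ) * Real.exp (-L i)) ≤ ENNReal.ofReal ε)
    (h3 : ∑' i, μ {x | β i x ≠ 0} ≠ ∞) :
    ∃ F : X → (ℕ →₀ ℕ), (∀ v, MeasurableSet (F ⁻¹' {v})) ∧ (∀ᵐ x ∂μ, ∀ i, F x i = β i x) ∧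
      ent μ F ≤ ENNReal.ofReal (3 * ε) := by
  classical
  set F : X → (ℕ →₀ ℕ) := fun x =>
    if h : (Function.support (fun i => β i x)).Finite then Finsupp.ofSupportFinite _ h else 0
    with hF
  have hFi : ∀ x, (Function.support (fun i => β i x)).Finite → ∀ i, F x i = β i x := by
    intro x hx i
    simp only [hF, dif_pos hx]
    rfl
  have hFne : ∀ x i, F x i ≠ 0 → β i x = F x i := by
    intro x i h
    by_cases hx : (Function.support (fun i => β i x)).Finite
    · exact (hFi x hx i).symm
    · simp only [hF, dif_neg hx] at h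
      exact absurd rfl h
  have hFr : ∀ x i, F x i ≤ r i := by
    intro x i
    by_cases h : F x i = 0
    · rw [h]; exact Nat.zero_le _
    · rw [← hFne x i h]; exact hr i x
  have hmeas0 : ∀ v : ℕ →₀ ℕ, v ≠ 0 → MeasurableSet (F ⁻¹' {v}) := by
    intro v hv
    have : F ⁻¹' {v} = ⋂ i, (β i) ⁻¹' {v i} := by
      ext x
      simp only [mem_preimage, mem_singleton_iff, mem_iInter]
      constructor
      · intro hx i
        by_cases hxs : (Function.support (fun i => β i x)).Finite
        · rw [← hFi x hxs i, hx]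
        · exfalso; apply hv; rw [← hx]; simp only [hF, dif_neg hxs]
      · intro hx
        have hxs : (Function.support (fun i => β i x)).Finite := by
          apply v.support.finite_toSet.subset
          intro i hi
          simp only [Finset.mem_coe, Finsupp.mem_support_iff]
          rw [← hx i]; exact hi
        ext i
        rw [hFi x hxs i, hx i]
    rw [this]
    exact MeasurableSet.iInter fun i => hβ i (measurableSet_singleton _)
  have hmeas : ∀ v : ℕ →₀ ℕ, MeasurableSet (F ⁻¹' {v}) := by
    intro v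
    by_cases hv : v = 0
    · have : F ⁻¹' {v} = (⋃ v : {v : ℕ →₀ ℕ // v ≠ 0}, F ⁻¹' {v.1})ᶜ := by
        ext x
        subst hv
        simp only [mem_preimage, mem_singleton_iff, mem_compl_iff, mem_iUnion, not_exists]
        constructor
        · intro hx v h; exact v.2 (by rw [← h, hx])
        · intro h
          by_contra hne
          exact h ⟨F x, hne⟩ rfl
      rw [this]
      exact (MeasurableSet.iUnion fun v : {v : ℕ →₀ ℕ // v ≠ 0} => hmeas0 v.1 v.2).compl
    · exact hmeas0 v hv
  refine ⟨F, hmeas, ?_, ?_⟩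
  · have := ae_finite_setOfPred_mem (μ := μ) h3
    filter_upwards [this] with x hx i
    exact hFi x hx i
  -- entropy bound
  set p : (ℕ →₀ ℕ) → ℝ := fun v => μ.real (F ⁻¹' {v}) with hp
  set c : (ℕ →₀ ℕ) → ℝ := fun v => ∑ i ∈ v.support, L i with hc
  have hc0 : ∀ v, 0 ≤ c v := fun v => Finset.sum_nonneg fun i _ => hL i
  set adm : (ℕ →₀ ℕ) → Prop := fun v => ∀ i, v i ≤ r i with hadm
  have key : ∀ v, ENNReal.ofReal (Real.negMulLog (p v)) + ENNReal.ofReal (p v)
      ≤ ENNReal.ofReal (p v * c v) + (if adm v then ENNReal.ofReal (Real.exp (-c v)) else 0) := by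
    intro v
    by_cases hv : adm v
    · rw [if_pos hv]
      exact gibbs_ennreal _ _ measureReal_nonneg measureReal_le_one (hc0 v)
    · have : F ⁻¹' {v} = ∅ := by
        ext x
        simp only [mem_preimage, mem_singleton_iff, mem_empty_iff_false, iff_false]
        intro hx
        apply hv
        intro i
        rw [← hx]
        exact hFr x i
      simp [hp, this]
  have hS1 : ∑' v, ENNReal.ofReal (p v) = 1 := by
    have := tsum_fibre μ F hmeas Set.univ MeasurableSet.univ
    simp only [univ_inter, measure_univ] at this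
    rw [← this]
    apply tsum_congr
    intro v
    simp only [hp, measureReal_def, ENNReal.ofReal_toReal (measure_ne_top _ _)]
  have hS2 : ∑' v, ENNReal.ofReal (p v * c v) ≤ ENNReal.ofReal ε := by
    refine le_trans ?_ h1
    have e1 : ∀ v, ENNReal.ofReal (p v * c v)
        = ∑' i, (if v i ≠ 0 then ENNReal.ofReal (L i) * μ (F ⁻¹' {v}) else 0) := by
      intro v
      have : ENNReal.ofReal (p v * c v) = ∑ i ∈ v.support, ENNReal.ofReal (L i) * μ (F ⁻¹' {v}) := by
        rw [mul_comm, ENNReal.ofReal_mul (hc0 v), ← Finset.sum_mul]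
        congr 1
        · rw [ENNReal.ofReal_sum_of_nonneg fun i _ => hL i]
        · simp only [hp, measureReal_def, ENNReal.ofReal_toReal (measure_ne_top _ _)]
      rw [this]
      rw [tsum_eq_sum (s := v.support)]
      · apply Finset.sum_congr rfl
        intro i hi
        rw [if_pos (Finsupp.mem_support_iff.mp hi)]
      · intro i hi
        have : v i = 0 := Finsupp.notMem_support_iff.mp hi
        simp [this]
    simp_rw [e1]
    rw [ENNReal.tsum_comm]
    apply ENNReal.tsum_le_tsum
    intro i
    have hm : MeasurableSet {x | β i x ≠ 0} := by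
      have := (hβ i) (measurableSet_singleton 0).compl
      exact this
    rw [← tsum_fibre μ F hmeas _ hm, ← ENNReal.tsum_mul_left]
    apply ENNReal.tsum_le_tsum
    intro v
    by_cases hv : v i ≠ 0
    · rw [if_pos hv]
      gcongr
      intro x hx
      refine ⟨?_, hx⟩
      have hx' : F x = v := hx
      have h5 : F x i ≠ 0 := by rw [hx']; exact hv
      have := hFne x i h5
      show β i x ≠ 0
      rw [this]; exact h5
    · rw [if_neg hv]; exact bot_le
  have hS3 : ∑' v, (if adm v then ENNReal.ofReal (Real.exp (-c v)) else 0)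
      ≤ ENNReal.ofReal (Real.exp ε) := by
    rw [ENNReal.tsum_eq_iSup_sum]
    apply iSup_le
    intro S
    rw [← Finset.sum_filter, ← ENNReal.ofReal_sum_of_nonneg (fun v _ => (Real.exp_pos _).le)]
    apply ENNReal.ofReal_le_ofReal
    apply exp_weight_sum r L ε
    · intro n
      have := (ENNReal.sum_le_tsum (Finset.range n)).trans h2
      rw [← ENNReal.ofReal_sum_of_nonneg (fun i _ => by positivity)] at this
      exact (ENNReal.ofReal_le_ofReal_iff hε0).mp this
    · intro v hv
      exact (Finset.mem_filter.mp hv).2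
  have htot : ent μ F + 1 ≤ ENNReal.ofReal (3 * ε) + 1 := by
    calc ent μ F + 1 = ∑' v, (ENNReal.ofReal (Real.negMulLog (p v)) + ENNReal.ofReal (p v)) := by
          rw [ENNReal.tsum_add, hS1]; rfl
      _ ≤ ∑' v, (ENNReal.ofReal (p v * c v)
            + (if adm v then ENNReal.ofReal (Real.exp (-c v)) else 0)) :=
          ENNReal.tsum_le_tsum key
      _ ≤ ENNReal.ofReal ε + ENNReal.ofReal (Real.exp ε) := by
          rw [ENNReal.tsum_add]
          exact add_le_add hS2 hS3
      _ ≤ ENNReal.ofReal (3 * ε) + 1 := by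
          rw [← ENNReal.ofReal_one, ← ENNReal.ofReal_add hε0 (Real.exp_pos _).le,
            ← ENNReal.ofReal_add (by positivity) zero_le_one]
          apply ENNReal.ofReal_le_ofReal
          have := Real.abs_exp_sub_one_le (x := ε) (by rw [abs_of_nonneg hε0]; exact hε1)
          rw [abs_of_nonneg hε0] at this
          have := le_of_abs_le this
          linarith
  exact (ENNReal.add_le_add_iff_right ENNReal.one_ne_top).mp htot

end Run7.h301.Join
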