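import Mathlib

set_option autoImplicit false
open MeasureTheory Set
open scoped ENNReal

namespace Run7.h301.Select

lemma card_color {I : Type} [Fintype I] [DecidableEq I] (r : ℕ) (T : Finset I) :
    ((Finset.univ.filter (fun κ : I → Fin (r + 1) => ∀ i ∈ T, κ i ≠ 0)).card : ℝ)
      = ((r : ℝ) / (r + 1)) ^ T.card * ((r : ℝ) + 1) ^ (Fintype.card I) := by
  have h1 : (Finset.univ.filter (fun κ : I → Fin (r + 1) => ∀ i ∈ T, κ i ≠ 0))
      = Fintype.piFinset (fun i => if i ∈ T then Finset.univ.erase (0 : Fin (r + 1)) else Finset.univ) := by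
    ext κ
    simp only [Finset.mem_filter, Finset.mem_univ, true_and, Fintype.mem_piFinset]
    constructor
    · intro h i
      by_cases hi : i ∈ T
      · simp [hi, h i hi]
      · simp [hi]
    · intro h i hi
      have := h i
      simp only [hi, if_true, Finset.mem_erase] at this
      exact this.1
  rw [h1, Fintype.card_piFinset]
  push_cast
  have h2 : ∀ i : I, (((if i ∈ T then Finset.univ.erase (0 : Fin (r + 1)) else Finset.univ).card : ℕ) : ℝ)
      = (if i ∈ T then ((r : ℝ) / (r + 1)) else 1) * ((r : ℝ) + 1) := by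
    intro i
    by_cases hi : i ∈ T
    · simp only [hi, if_true, Finset.card_erase_of_mem (Finset.mem_univ _), Finset.card_univ,
        Fintype.card_fin, Nat.add_sub_cancel]
      field_simp
    · simp [hi]
  simp_rw [h2]
  rw [Finset.prod_mul_distrib, Finset.prod_const, Finset.card_univ, Finset.prod_ite_mem,
    Finset.univ_inter, Finset.prod_const]

lemma card_color0 {I : Type} [Fintype I] [DecidableEq I] (r : ℕ) (i₀ : I) :
    ((Finset.univ.filter (fun κ : I → Fin (r + 1) => κ i₀ = 0)).card : ℝ)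
      = (1 / ((r : ℝ) + 1)) * ((r : ℝ) + 1) ^ (Fintype.card I) := by
  have h1 : (Finset.univ.filter (fun κ : I → Fin (r + 1) => κ i₀ = 0))
      = Fintype.piFinset (fun i => if i ∈ ({i₀} : Finset I) then {(0 : Fin (r + 1))} else Finset.univ) := by
    ext κ
    simp only [Finset.mem_filter, Finset.mem_univ, true_and, Fintype.mem_piFinset]
    constructor
    · intro h i
      by_cases hi : i = i₀
      · subst hi; simp [h]
      · simp [hi]
    · intro h
      have := h i₀
      simpa using this
  rw [h1, Fintype.card_piFinset]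
  push_cast
  have h2 : ∀ i : I, (((if i ∈ ({i₀} : Finset I) then {(0 : Fin (r + 1))} else Finset.univ : Finset (Fin (r+1))).card : ℕ) : ℝ)
      = (if i ∈ ({i₀} : Finset I) then (1 / ((r : ℝ) + 1)) else 1) * ((r : ℝ) + 1) := by
    intro i
    by_cases hi : i ∈ ({i₀} : Finset I)
    · simp only [hi, if_true, Finset.card_singleton]
      field_simp
      norm_num
    · simp only [hi, if_false, Finset.card_univ, Fintype.card_fin]
      push_cast; ring
  simp_rw [h2]
  rw [Finset.prod_mul_distrib, Finset.prod_const, Finset.card_univ, Finset.prod_ite_mem,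
    Finset.univ_inter, Finset.prod_const]
  simp

lemma avg {Z J K : Type} [MeasurableSpace Z] (m : Measure Z) [IsFiniteMeasure m] [Fintype J]
    [Fintype K] (u : Z → J) (hu : ∀ j, MeasurableSet (u ⁻¹' {j})) (P : K → J → Prop)
    [∀ k j, Decidable (P k j)] (N : ℝ)
    (hN : ∀ j, ((Finset.univ.filter (fun k => P k j)).card : ℝ) ≤ N) :
    ∑ k : K, m.real {z | P k (u z)} ≤ N * m.real univ := by
  classical
  have h1 : ∀ k : K, m.real {z | P k (u z)} = ∑ j : J, if P k j then m.real (u ⁻¹' {j}) else 0 := by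
    intro k
    have : {z | P k (u z)} = ⋃ j ∈ Finset.univ.filter (fun j => P k j), u ⁻¹' {j} := by
      ext z; simp
    rw [this, measureReal_biUnion_finset, Finset.sum_filter]
    · intro i _ j _ hij
      apply Set.disjoint_left.mpr
      intro x hx hy
      exact hij (by
        have h1 : u x = i := hx
        have h2 : u x = j := hy
        rw [← h1, ← h2])
    · intro j _; exact hu j
  have h2 : m.real univ = ∑ j : J, m.real (u ⁻¹' {j}) := by
    have : (univ : Set Z) = ⋃ j ∈ (Finset.univ : Finset J), u ⁻¹' {j} := by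
      ext z; simp
    rw [this, measureReal_biUnion_finset]
    · intro i _ j _ hij
      apply Set.disjoint_left.mpr
      intro x hx hy
      exact hij (by
        have h1 : u x = i := hx
        have h2 : u x = j := hy
        rw [← h1, ← h2])
    · intro j _; exact hu j
  simp_rw [h1]
  rw [Finset.sum_comm, h2, Finset.mul_sum]
  apply Finset.sum_le_sum
  intro j _
  rw [← Finset.sum_filter, Finset.sum_const, nsmul_eq_mul]
  exact mul_le_mul_of_nonneg_right (hN j) measureReal_nonneg

theorem select {G X Y : Type} [Group G] [MulAction G Y] [MeasurableSpace X] [MeasurableSpace Y]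
    [StandardBorelSpace Y] (μ : Measure X) [IsProbabilityMeasure μ] (ν : Measure Y)
    [IsProbabilityMeasure ν] (hact : ∀ g : G, Measurable (fun y : Y => g • y))
    (hfree : ∀ g : G, g ≠ 1 → ν {y : Y | g • y = y} = 0)
    (p : X → Y) (hp : Measurable p) (F : Finset G) (hF : F.Nonempty) (r : ℕ) (τ δ : ℝ)
    (hτ : 0 < τ) (hδ : 0 < δ) (err : G → Set X) (herr : ∀ h, MeasurableSet (err h))
    (herrδ : ∀ h ∈ F, μ.real (err h) ≤ δ) :
    ∃ B : Set Y, MeasurableSet B ∧ ν.real B ≤ 3 / ((r : ℝ) + 1) ∧
      ν.real {y | ∀ h ∈ F, h⁻¹ • y ∉ B} ≤ 3 * ((r : ℝ) / (r + 1)) ^ F.card + 4 * τ ∧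
      ∑ h ∈ F, μ.real {x | p x ∈ B ∧ x ∈ err h} ≤ 3 * (F.card * δ / ((r : ℝ) + 1)) := by
  classical
  let bit : Y → ℕ → Bool := MeasurableSpace.mapNatBool Y
  have hbit : Measurable bit := MeasurableSpace.measurable_mapNatBool Y
  have hbitinj : Function.Injective bit := MeasurableSpace.injective_mapNatBool Y
  let c : (k : ℕ) → Y → (Fin k → Bool) := fun k y i => bit y i
  have hc : ∀ k, Measurable (c k) := by
    intro k
    apply measurable_pi_lambda
    intro i
    exact (measurable_pi_apply (i : ℕ)).comp hbit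
  -- the tuple map
  let u : (k : ℕ) → Y → (F → (Fin k → Bool)) := fun k y h => c k ((h : G)⁻¹ • y)
  have hu : ∀ k, Measurable (u k) := by
    intro k
    apply measurable_pi_lambda
    intro h
    exact (hc k).comp (hact _)
  let D : ℕ → Set Y := fun k => {y | Function.Injective (u k y)}
  have hDm : ∀ k, MeasurableSet (D k) := by
    intro k
    exact (hu k) (MeasurableSet.of_discrete (s := {w : F → (Fin k → Bool) | Function.Injective w}))
  have hDmono : Monotone D := by
    intro k l hkl y hy h h' heq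
    apply hy
    ext i
    have := congrFun heq (Fin.castLE hkl i)
    exact this
  -- the good set
  have hgood : ∀ y, (∀ h ∈ F, ∀ h' ∈ F, h ≠ h' → h⁻¹ • y ≠ h'⁻¹ • y) → ∃ k, y ∈ D k := by
    intro y hy
    have h1 : ∀ q : F × F, ∃ k : ℕ, q.1 ≠ q.2 → bit ((q.1 : G)⁻¹ • y) k ≠ bit ((q.2 : G)⁻¹ • y) k := by
      intro q
      by_cases hq : q.1 = q.2
      · exact ⟨0, fun h => absurd hq h⟩
      · have h2 : ((q.1 : G)⁻¹ • y) ≠ ((q.2 : G)⁻¹ • y) :=
          hy _ q.1.2 _ q.2.2 (fun h => hq (Subtype.ext h))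
        have h3 : bit ((q.1 : G)⁻¹ • y) ≠ bit ((q.2 : G)⁻¹ • y) := fun h => h2 (hbitinj h)
        obtain ⟨k, hk⟩ := Function.ne_iff.mp h3
        exact ⟨k, fun _ => hk⟩
    choose k hk using h1
    refine ⟨(Finset.univ.sup k) + 1, ?_⟩
    intro h h' heq
    by_contra hne
    have h4 := hk (h, h') hne
    have h5 : k (h, h') < (Finset.univ.sup k) + 1 :=
      Nat.lt_succ_of_le (Finset.le_sup (Finset.mem_univ _))
    exact h4 (congrFun heq ⟨k (h, h'), h5⟩)
  have hnull : ν (⋂ k, (D k)ᶜ) = 0 := by
    have hsub : (⋂ k, (D k)ᶜ) ⊆ ⋃ q : {q : F × F // q.1 ≠ q.2},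
        {y : Y | ((q.1.2 : G) * (q.1.1 : G)⁻¹) • y = y} := by
      intro y hy
      by_contra hne
      simp only [mem_iUnion, not_exists] at hne
      obtain ⟨k, hk⟩ := hgood y (by
        intro h hh h' hh' hdiff heq
        apply hne ⟨(⟨h, hh⟩, ⟨h', hh'⟩), fun e => hdiff (congrArg Subtype.val e)⟩
        show (h' * h⁻¹) • y = y
        rw [mul_smul, heq, smul_inv_smul])
      exact (mem_iInter.mp hy k) hk
    apply measure_mono_null hsub
    rw [measure_iUnion_null_iff]
    intro q
    apply hfree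
    intro he
    apply q.2
    apply Subtype.ext
    exact (mul_inv_eq_one.mp he).symm
  have htend : Filter.Tendsto (fun k => ν (D k)ᶜ) Filter.atTop (nhds 0) := by
    rw [← hnull]
    apply tendsto_measure_iInter_atTop
    · intro k; exact (hDm k).compl.nullMeasurableSet
    · intro k l hkl; exact compl_subset_compl.mpr (hDmono hkl)
    · exact ⟨0, measure_ne_top _ _⟩
  obtain ⟨k, hk⟩ : ∃ k, ν.real (D k)ᶜ ≤ τ := by
    have := (htend.eventually (gt_mem_nhds (ENNReal.ofReal_pos.mpr hτ))).exists
    obtain ⟨k, hk⟩ := this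
    refine ⟨k, ?_⟩
    rw [measureReal_def]
    exact ENNReal.toReal_le_of_le_ofReal hτ.le hk.le
  -- colourings
  let I := Fin k → Bool
  let K := I → Fin (r + 1)
  let Bs : K → Set Y := fun κ => {y | κ (c k y) = 0}
  let a : K → ℝ := fun κ => ν.real (Bs κ)
  let b : K → ℝ := fun κ => ν.real {y | Function.Injective (u k y) ∧ ∀ h : F, κ (u k y h) ≠ 0}
  let e : K → ℝ := fun κ => ∑ h ∈ F, μ.real {x | p x ∈ Bs κ ∧ x ∈ err h}
  have hr1 : (0 : ℝ) < (r : ℝ) + 1 := by positivity
  have hcard : (Fintype.card K : ℝ) = ((r : ℝ) + 1) ^ (Fintype.card I) := by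
    simp [K, Fintype.card_pi]
  have hKpos : (0 : ℝ) < Fintype.card K := by rw [hcard]; positivity
  have hcm : ∀ j, MeasurableSet ((c k) ⁻¹' {j}) := fun j => hc k (measurableSet_singleton _)
  have hasum : ∑ κ, a κ ≤ (1 / ((r : ℝ) + 1)) * Fintype.card K := by
    have := avg ν (c k) hcm (fun (κ : K) (j : I) => κ j = 0) ((1 / ((r : ℝ) + 1)) * Fintype.card K)
      (by intro j; rw [hcard]; exact (card_color0 r j).le)
    simpa using this
  have hbsum : ∑ κ, b κ ≤ ((r : ℝ) / (r + 1)) ^ F.card * Fintype.card K := by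
    have := avg ν (u k) (fun j => hu k (measurableSet_singleton _))
      (fun (κ : K) (w : F → I) => Function.Injective w ∧ ∀ h : F, κ (w h) ≠ 0)
      (((r : ℝ) / (r + 1)) ^ F.card * Fintype.card K) (by
        intro w
        by_cases hw : Function.Injective w
        · have h1 := card_color (I := I) r (Finset.univ.image w)
          rw [Finset.card_image_of_injective _ hw, Finset.card_univ, Fintype.card_coe] at h1
          rw [hcard, ← h1]
          norm_cast
          apply Finset.card_le_card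
          intro κ hκ
          simp only [Finset.mem_filter, Finset.mem_univ, true_and] at hκ ⊢
          intro i hi
          obtain ⟨h, _, rfl⟩ := Finset.mem_image.mp hi
          exact hκ.2 h
        · simp only [hw, false_and, Finset.filter_false, Finset.card_empty, Nat.cast_zero]
          positivity)
    simpa using this
  have hesum : ∑ κ, e κ ≤ (F.card * δ / ((r : ℝ) + 1)) * Fintype.card K := by
    show ∑ κ : K, ∑ h ∈ F, μ.real {x | p x ∈ Bs κ ∧ x ∈ err h} ≤ _
    rw [Finset.sum_comm]
    have hterm : ∀ h ∈ F, ∑ κ : K, μ.real {x | p x ∈ Bs κ ∧ x ∈ err h}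
        ≤ (1 / ((r : ℝ) + 1)) * Fintype.card K * δ := by
      intro h hh
      have h1 := avg (μ.restrict (err h)) (fun x => c k (p x))
        (fun j => ((hc k).comp hp) (measurableSet_singleton _))
        (fun (κ : K) (j : I) => κ j = 0) ((1 / ((r : ℝ) + 1)) * Fintype.card K)
        (by intro j; rw [hcard]; exact (card_color0 r j).le)
      have h2 : ∀ κ : K, (μ.restrict (err h)).real {x | κ (c k (p x)) = 0}
          = μ.real {x | p x ∈ Bs κ ∧ x ∈ err h} := by
        intro κ
        rw [measureReal_restrict_apply]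
        · rfl
        · exact ((hc k).comp hp) (MeasurableSet.of_discrete (s := {j | κ j = 0}))
      simp_rw [h2] at h1
      refine h1.trans ?_
      rw [measureReal_restrict_apply MeasurableSet.univ, univ_inter]
      exact mul_le_mul_of_nonneg_left (herrδ h hh) (by positivity)
    refine (Finset.sum_le_sum hterm).trans ?_
    rw [Finset.sum_const, nsmul_eq_mul]
    apply le_of_eq
    field_simp
  set A0 : ℝ := 1 / ((r : ℝ) + 1) with hA0
  set B0 : ℝ := ((r : ℝ) / (r + 1)) ^ F.card + τ with hB0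
  set E0 : ℝ := F.card * δ / ((r : ℝ) + 1) with hE0
  have hA0p : 0 < A0 := by positivity
  have hB0p : 0 < B0 := by positivity
  have hFc : (0 : ℝ) < F.card := by exact_mod_cast hF.card_pos
  have hE0p : 0 < E0 := by positivity
  obtain ⟨κ, _, hκ⟩ : ∃ κ ∈ (Finset.univ : Finset K), a κ / A0 + b κ / B0 + e κ / E0 ≤ 3 := by
    apply Finset.exists_le_of_sum_le (f := fun κ => a κ / A0 + b κ / B0 + e κ / E0) (g := fun _ => (3 : ℝ))
    · exact ⟨fun _ => 0, Finset.mem_univ _⟩
    · rw [Finset.sum_const, nsmul_eq_mul, Finset.card_univ]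
      rw [Finset.sum_add_distrib, Finset.sum_add_distrib, ← Finset.sum_div, ← Finset.sum_div,
        ← Finset.sum_div]
      have t1 : (∑ κ, a κ) / A0 ≤ Fintype.card K := by
        rw [div_le_iff₀ hA0p]; linarith
      have t2 : (∑ κ, b κ) / B0 ≤ Fintype.card K := by
        rw [div_le_iff₀ hB0p, hB0]
        nlinarith
      have t3 : (∑ κ, e κ) / E0 ≤ Fintype.card K := by
        rw [div_le_iff₀ hE0p]; linarith
      linarith
  have ha0 : 0 ≤ a κ / A0 := div_nonneg measureReal_nonneg hA0p.le
  have hb0 : 0 ≤ b κ / B0 := div_nonneg measureReal_nonneg hB0p.le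
  have he0 : 0 ≤ e κ / E0 := div_nonneg (Finset.sum_nonneg fun _ _ => measureReal_nonneg) hE0p.le
  have hBm : MeasurableSet (Bs κ) := hc k (MeasurableSet.of_discrete (s := {j | κ j = 0}))
  refine ⟨Bs κ, hBm, ?_, ?_, ?_⟩
  · have : a κ / A0 ≤ 3 := by linarith
    rw [div_le_iff₀ hA0p] at this
    calc ν.real (Bs κ) = a κ := rfl
      _ ≤ 3 * A0 := this
      _ = 3 / ((r : ℝ) + 1) := by rw [hA0]; ring
  · have h1 : b κ ≤ 3 * B0 := by
      have : b κ / B0 ≤ 3 := by linarith
      rwa [div_le_iff₀ hB0p] at this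
    have hsub : {y | ∀ h ∈ F, h⁻¹ • y ∉ Bs κ}
        ⊆ {y | Function.Injective (u k y) ∧ ∀ h : F, κ (u k y h) ≠ 0} ∪ (D k)ᶜ := by
      intro y hy
      by_cases hD : y ∈ D k
      · left; exact ⟨hD, fun h => hy h h.2⟩
      · right; exact hD
    calc ν.real {y | ∀ h ∈ F, h⁻¹ • y ∉ Bs κ}
        ≤ ν.real ({y | Function.Injective (u k y) ∧ ∀ h : F, κ (u k y h) ≠ 0} ∪ (D k)ᶜ) :=
          measureReal_mono hsub
      _ ≤ b κ + ν.real (D k)ᶜ := measureReal_union_le _ _
      _ ≤ 3 * B0 + τ := add_le_add h1 hk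
      _ = 3 * ((r : ℝ) / (r + 1)) ^ F.card + 4 * τ := by rw [hB0]; ring
  · have : e κ / E0 ≤ 3 := by linarith
    rwa [div_le_iff₀ hE0p] at this

end Run7.h301.Select
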