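import Mathlib
import Pool.Agent.R499.HT.Defs

/-!
# Lower bound for positive combinations of commuting translations (helper301, for helper986)
-/

set_option autoImplicit false

namespace Pool.Agent.Run7.h301.TFL

open Pool.Agent.R499.HT Filter Topology

variable {G : Type} [Group G] {I : Type} [Fintype I]

/-- the `m`-th convolution power -/
noncomputable def rr (w : I → ℝ) (f : I → G) : ℕ → G → ℝ
  | 0 => fun x => by classical exact if x = 1 then 1 else 0
  | m + 1 => fun x => ∑ j, w j * rr w f m ((f j)⁻¹ * x)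

lemma rr_nonneg {w : I → ℝ} (hw : ∀ i, 0 ≤ w i) (f : I → G) (m : ℕ) (x : G) : 0 ≤ rr w f m x := by
  induction m generalizing x with
  | zero =>
    simp only [rr]
    split_ifs <;> norm_num
  | succ m ih =>
    simp only [rr]
    exact Finset.sum_nonneg fun j _ => mul_nonneg (hw j) (ih _)

/-- the operator -/
noncomputable def TT' (w : I → ℝ) (f : I → G) : L2 G →L[ℂ] L2 G := ∑ i, (w i : ℂ) • lam (f i)

lemma bas_apply (x : G) : (bas G (1 : G)) x = by classical exact if x = 1 then (1 : ℂ) else 0 := by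
  classical
  rw [← bas_inner]
  have h := orthonormal_iff_ite.1 (bas G).orthonormal x 1
  rw [h]

lemma TT_apply (w : I → ℝ) (f : I → G) (v : L2 G) (x : G) :
    (TT' w f v) x = ∑ i, (w i : ℂ) * v ((f i)⁻¹ * x) := by
  rw [TT', ← bas_inner, ContinuousLinearMap.sum_apply, inner_sum]
  refine Finset.sum_congr rfl fun i _ => ?_
  rw [ContinuousLinearMap.smul_apply, inner_smul_right, bas_inner, lam_apply]

lemma pow_apply (w : I → ℝ) (f : I → G) (m : ℕ) (x : G) :
    ((TT' w f ^ m) (bas G 1)) x = (rr w f m x : ℂ) := by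
  classical
  induction m generalizing x with
  | zero =>
    simp only [pow_zero, rr]
    change (bas G (1 : G)) x = _
    rw [bas_apply]
    split_ifs <;> simp
  | succ m ih =>
    have h : (TT' w f ^ (m + 1)) (bas G 1) = TT' w f ((TT' w f ^ m) (bas G 1)) := by
      rw [pow_succ']
      rfl
    rw [h, TT_apply]
    simp only [rr]
    rw [Complex.ofReal_sum]
    refine Finset.sum_congr rfl fun i _ => ?_
    rw [ih, Complex.ofReal_mul]

section comm

variable {f : I → G} (hc : ∀ i j, f i * f j = f j * f i)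

include hc in
lemma exists_prod : ∃ g : (I → ℕ) → G, g 0 = 1 ∧ ∀ (j : I) (n : I → ℕ), ∃ n' : I → ℕ,
    f j * g n = g n' ∧ ∀ i, n' i ≤ n i + 1 := by
  classical
  letI : CommGroup (Subgroup.closure (Set.range f)) :=
    Subgroup.closureCommGroupOfComm (by
      rintro _ ⟨i, rfl⟩ _ ⟨j, rfl⟩
      exact hc i j)
  let f' : I → Subgroup.closure (Set.range f) := fun i => ⟨f i, Subgroup.subset_closure ⟨i, rfl⟩⟩
  refine ⟨fun n => ((∏ i, f' i ^ n i : Subgroup.closure (Set.range f)) : G), ?_, ?_⟩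
  · simp
  · intro j n
    refine ⟨n + Pi.single j 1, ?_, ?_⟩
    · have h : f' j * ∏ i, f' i ^ n i = ∏ i, f' i ^ (n + Pi.single j 1 : I → ℕ) i := by
        simp only [Pi.add_apply, pow_add, Finset.prod_mul_distrib]
        rw [mul_comm]
        congr 1
        rw [Finset.prod_eq_single j]
        · simp
        · intro b _ hb
          simp [Pi.single_apply, hb]
        · simp
      exact congrArg Subtype.val h
    · intro i
      simp only [Pi.add_apply, Pi.single_apply]
      split_ifs <;> omega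

include hc in
lemma exists_support (w : I → ℝ) (m : ℕ) : ∃ S : Finset G, S.card ≤ (m + 1) ^ Fintype.card I ∧
    ∀ x, rr w f m x ≠ 0 → x ∈ S := by
  classical
  obtain ⟨g, hg0, hg⟩ := exists_prod hc
  have key : ∀ m : ℕ, ∀ x, rr w f m x ≠ 0 → ∃ n : I → ℕ, (∀ i, n i ≤ m) ∧ x = g n := by
    intro m
    induction m with
    | zero =>
      intro x hx
      refine ⟨0, fun i => le_rfl, ?_⟩
      rw [hg0]
      by_contra h
      exact hx (by simp [rr, h])
    | succ m ih =>
      intro x hx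
      simp only [rr] at hx
      obtain ⟨j, -, hj⟩ := Finset.exists_ne_zero_of_sum_ne_zero hx
      obtain ⟨n, hn, hx'⟩ := ih _ (right_ne_zero_of_mul hj)
      obtain ⟨n', h1, h2⟩ := hg j n
      refine ⟨n', fun i => (h2 i).trans (Nat.succ_le_succ (hn i)), ?_⟩
      rw [← h1, ← hx']
      group
  refine ⟨(Fintype.piFinset fun _ : I => Finset.range (m + 1)).image g, ?_, ?_⟩
  · refine Finset.card_image_le.trans ?_
    rw [Fintype.card_piFinset]
    simp
  · intro x hx
    obtain ⟨n, hn, rfl⟩ := key m x hx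
    exact Finset.mem_image_of_mem _ (Fintype.mem_piFinset.2 fun i =>
      Finset.mem_range.2 (Nat.lt_succ_of_le (hn i)))

include hc in
lemma summable_rr (w : I → ℝ) (m : ℕ) : Summable (rr w f m) := by
  obtain ⟨S, -, hS⟩ := exists_support hc w m
  exact summable_of_ne_finset_zero (s := S) fun x hx => by
    by_contra h
    exact hx (hS x h)

include hc in
lemma tsum_rr (w : I → ℝ) (m : ℕ) : ∑' x, rr w f m x = (∑ i, w i) ^ m := by
  induction m with
  | zero =>
    simp only [rr, pow_zero]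
    rw [tsum_eq_single 1]
    · simp
    · intro x hx
      simp [hx]
  | succ m ih =>
    have hs : ∀ j, Summable fun x => w j * rr w f m ((f j)⁻¹ * x) := fun j =>
      ((Equiv.mulLeft (f j)⁻¹).summable_iff.2 (summable_rr hc w m)).mul_left _
    calc ∑' x, rr w f (m + 1) x = ∑' x, ∑ j, w j * rr w f m ((f j)⁻¹ * x) := rfl
      _ = ∑ j, ∑' x, w j * rr w f m ((f j)⁻¹ * x) := Summable.tsum_finsetSum fun j _ => hs j
      _ = ∑ j, w j * ∑' x, rr w f m x := by
        refine Finset.sum_congr rfl fun j _ => ?_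
        rw [tsum_mul_left]
        congr 1
        exact (Equiv.mulLeft (f j)⁻¹).tsum_eq (rr w f m)
      _ = (∑ i, w i) ^ (m + 1) := by
        rw [← Finset.sum_mul, ih, pow_succ']

include hc in
lemma pow_le (w : I → ℝ) (hw : ∀ i, 0 ≤ w i) (m : ℕ) :
    ((∑ i, w i) ^ m) ^ 2 ≤ ((m : ℝ) + 1) ^ Fintype.card I * (‖TT' w f‖ ^ m) ^ 2 := by
  classical
  obtain ⟨S, hcard, hS⟩ := exists_support hc w m
  have h1 : (∑ i, w i) ^ m = ∑ x ∈ S, rr w f m x := by
    rw [← tsum_rr hc w m]
    exact tsum_eq_sum fun x hx => by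
      by_contra h
      exact hx (hS x h)
  have h2 : ∑ x ∈ S, rr w f m x ^ 2 ≤ ‖(TT' w f ^ m) (bas G 1)‖ ^ 2 := by
    have h3 := (bas G).orthonormal.sum_inner_products_le (s := S) ((TT' w f ^ m) (bas G 1))
    refine le_trans (le_of_eq ?_) h3
    refine Finset.sum_congr rfl fun x _ => ?_
    rw [bas_inner, pow_apply, Complex.norm_real, Real.norm_eq_abs, sq_abs]
  have h4 : ‖(TT' w f ^ m) (bas G 1)‖ ≤ ‖TT' w f‖ ^ m := by
    refine (ContinuousLinearMap.le_opNorm _ _).trans ?_
    rw [(bas G).orthonormal.1 1, mul_one]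
    rcases m.eq_zero_or_pos with rfl | hm
    · simp only [pow_zero]
      exact ContinuousLinearMap.norm_id_le
    · exact norm_pow_le' _ hm
  rw [h1]
  calc (∑ x ∈ S, rr w f m x) ^ 2 ≤ S.card * ∑ x ∈ S, rr w f m x ^ 2 :=
        sq_sum_le_card_mul_sum_sq
    _ ≤ ((m : ℝ) + 1) ^ Fintype.card I * (‖TT' w f‖ ^ m) ^ 2 := by
      refine mul_le_mul (by exact_mod_cast hcard) (h2.trans ?_)
        (Finset.sum_nonneg fun x _ => sq_nonneg _) (by positivity)
      exact pow_le_pow_left₀ (norm_nonneg _) h4 2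

end comm

/-- **Lower bound.** Positive combinations of commuting translations. -/
theorem sum_le_norm_univ {f : I → G} (hc : ∀ i j, f i * f j = f j * f i) (w : I → ℝ)
    (hw : ∀ i, 0 ≤ w i) : ∑ i, w i ≤ ‖∑ i, (w i : ℂ) • lam (f i)‖ := by
  classical
  set W := ∑ i, w i with hW
  set t := ‖∑ i, (w i : ℂ) • lam (f i)‖ with ht
  have ht0 : 0 ≤ t := norm_nonneg _
  by_contra hlt
  push Not at hlt
  have hW0 : 0 < W := ht0.trans_lt hlt
  have h1 : ∀ m : ℕ, (W ^ m) ^ 2 ≤ ((m : ℝ) + 1) ^ Fintype.card I * (t ^ m) ^ 2 :=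
    fun m => pow_le hc w hw m
  set r := (t / W) ^ 2 with hr
  have hr0 : 0 ≤ r := sq_nonneg _
  have hr1 : r < 1 := by
    have : t / W < 1 := (div_lt_one hW0).2 hlt
    have h0 : 0 ≤ t / W := div_nonneg ht0 hW0.le
    nlinarith
  have h2 : ∀ m : ℕ, 1 ≤ ((m : ℝ) + 1) ^ Fintype.card I * r ^ m := by
    intro m
    have h3 := h1 m
    have h4 : r ^ m = (t ^ m) ^ 2 / (W ^ m) ^ 2 := by
      rw [hr, ← pow_mul, ← pow_mul, ← pow_mul, mul_comm 2 m, div_pow]
    rw [h4, ← mul_div_assoc, le_div_iff₀ (by positivity), one_mul]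
    exact h3
  have h5 : Tendsto (fun n : ℕ => (n : ℝ) ^ Fintype.card I * r ^ n) atTop (𝓝 0) :=
    tendsto_pow_const_mul_const_pow_of_abs_lt_one _ (by rwa [abs_of_nonneg hr0])
  have h6 : Tendsto (fun n : ℕ => ((n + 1 : ℕ) : ℝ) ^ Fintype.card I * r ^ (n + 1)) atTop (𝓝 0) :=
    h5.comp (tendsto_add_atTop_nat 1)
  have h7 : ∀ n : ℕ, r ≤ ((n + 1 : ℕ) : ℝ) ^ Fintype.card I * r ^ (n + 1) := by
    intro n
    have h8 := mul_le_mul_of_nonneg_right (h2 n) hr0
    rw [one_mul] at h8
    refine h8.trans (le_of_eq ?_)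
    push_cast
    ring
  have h9 : r ≤ 0 := ge_of_tendsto' h6 h7
  have h10 : r = 0 := le_antisymm h9 hr0
  have h11 := h2 1
  rw [h10] at h11
  norm_num at h11

/-- **Lower bound.** -/
theorem sum_le_norm {J : Type} (s : Finset J) (w : J → ℝ) (hw : ∀ i ∈ s, 0 ≤ w i) (f : J → G)
    (hc : ∀ i ∈ s, ∀ j ∈ s, f i * f j = f j * f i) :
    ∑ i ∈ s, w i ≤ ‖∑ i ∈ s, (w i : ℂ) • lam (f i)‖ := by
  have h := sum_le_norm_univ (I := s) (f := fun i => f i.1) (fun i j => hc _ i.2 _ j.2)
    (fun i => w i.1) (fun i => hw _ i.2)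
  have h1 : ∑ i : s, w i.1 = ∑ i ∈ s, w i := Finset.sum_coe_sort s w
  have h2 : ∑ i : s, (w i.1 : ℂ) • lam (f i.1) = ∑ i ∈ s, (w i : ℂ) • lam (f i) :=
    Finset.sum_coe_sort s fun i => (w i : ℂ) • lam (f i)
  rw [← h1, ← h2]
  exact h

end Pool.Agent.Run7.h301.TFL
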